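import Mathlib
import Pool.Agent.N604.MW.Stm4
import Pool.Agent.N604.MW.KMeas

/-!
# Project KV (helper604), piece L2 (helper559): the second moment of one exponential sum
-/

set_option autoImplicit false

namespace Pool.Agent.N559.KV

open Finset MeasureTheory Filter Topology
open Pool.Agent.N604.MW
open scoped ENNReal

/-- the exponential sum without integer parts -/
noncomputable def SQ (k : ℕ) (F : ℕ → ℝ) (X : ℕ) (θ : Fin k → ℝ) (g : ℝ) : ℂ :=
  ∑ x ∈ Finset.Icc X (2 * X), (lam x : ℂ) * e (g * QQ k F θ x)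

theorem SQ_cont (k : ℕ) (F : ℕ → ℝ) (X : ℕ) (g : ℝ) : Continuous fun θ => SQ k F X θ g := by
  unfold SQ
  refine continuous_finsetSum _ fun x _ => continuous_const.mul (e_continuous.comp ?_)
  exact continuous_const.mul (QQ_continuous k F x)

theorem e_add (x y : ℝ) : e (x + y) = e x * e y := by
  unfold e
  rw [← Complex.exp_add]
  congr 1
  push_cast
  ring

/-- the square of the absolute value as a double sum -/
theorem SQ_sq (k : ℕ) (F : ℕ → ℝ) (X : ℕ) (θ : Fin k → ℝ) (g : ℝ) :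
    ((‖SQ k F X θ g‖ ^ 2 : ℝ) : ℂ) = ∑ x ∈ Finset.Icc X (2 * X), ∑ y ∈ Finset.Icc X (2 * X),
      (lam x : ℂ) * lam y * e (g * (F x - F y)) *
        e (∑ l : Fin k, θ l * (g * ((x : ℝ) ^ ((l : ℕ) + 1) - (y : ℝ) ^ ((l : ℕ) + 1)))) := by
  have h1 : ((‖SQ k F X θ g‖ ^ 2 : ℝ) : ℂ) = SQ k F X θ g * (starRingEnd ℂ) (SQ k F X θ g) := by
    rw [Complex.mul_conj, Complex.normSq_eq_norm_sq]
  rw [h1]
  unfold SQ
  rw [map_sum, Finset.sum_mul_sum]
  refine Finset.sum_congr rfl fun x _ => Finset.sum_congr rfl fun y _ => ?_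
  rw [map_mul, Complex.conj_ofReal, ← e_neg]
  have h2 : e (g * QQ k F θ x) * e (-(g * QQ k F θ y)) = e (g * (F x - F y)) *
      e (∑ l : Fin k, θ l * (g * ((x : ℝ) ^ ((l : ℕ) + 1) - (y : ℝ) ^ ((l : ℕ) + 1)))) := by
    rw [← e_add, ← e_add]
    congr 1
    unfold QQ
    have h3 : ∑ l : Fin k, θ l * (g * ((x : ℝ) ^ ((l : ℕ) + 1) - (y : ℝ) ^ ((l : ℕ) + 1))) =
        g * ∑ l : Fin k, θ l * (x : ℝ) ^ ((l : ℕ) + 1) -
          g * ∑ l : Fin k, θ l * (y : ℝ) ^ ((l : ℕ) + 1) := by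
      rw [Finset.mul_sum, Finset.mul_sum, ← Finset.sum_sub_distrib]
      exact Finset.sum_congr rfl fun l _ => by ring
    rw [h3]
    ring
  calc (lam x : ℂ) * e (g * QQ k F θ x) * ((lam y : ℂ) * e (-(g * QQ k F θ y)))
      = (lam x : ℂ) * lam y * (e (g * QQ k F θ x) * e (-(g * QQ k F θ y))) := by ring
    _ = _ := by rw [h2]; ring

/-- lower bound for the difference of powers -/
theorem pow_diff {k X x y : ℕ} (hk : 1 ≤ k) (hx : X ≤ x) (hxy : y ≤ x) :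
    (X : ℝ) ^ (k - 1) * ((x : ℝ) - y) ≤ (x : ℝ) ^ k - (y : ℝ) ^ k := by
  obtain ⟨j, rfl⟩ : ∃ j, k = j + 1 := ⟨k - 1, by omega⟩
  rw [Nat.add_sub_cancel]
  have h1 : (y : ℝ) ≤ x := by exact_mod_cast hxy
  have h2 : (X : ℝ) ≤ x := by exact_mod_cast hx
  have h3 : (X : ℝ) ^ j ≤ (x : ℝ) ^ j := pow_le_pow_left₀ (Nat.cast_nonneg _) h2 j
  have h4 : (y : ℝ) ^ j ≤ (x : ℝ) ^ j := pow_le_pow_left₀ (Nat.cast_nonneg _) h1 j
  have h5 : (0 : ℝ) ≤ y := Nat.cast_nonneg _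
  have e1 : (x : ℝ) ^ (j + 1) - (y : ℝ) ^ (j + 1) = (x : ℝ) ^ j * ((x : ℝ) - y) +
      y * ((x : ℝ) ^ j - (y : ℝ) ^ j) := by ring
  rw [e1]
  have h6 := mul_le_mul_of_nonneg_right h3 (sub_nonneg.2 h1)
  have h7 := mul_nonneg h5 (sub_nonneg.2 h4)
  linarith

theorem pow_diff_abs {k X x y : ℕ} (hk : 1 ≤ k) (hx : X ≤ x) (hy : X ≤ y) :
    (X : ℝ) ^ (k - 1) * |(x : ℝ) - y| ≤ |(x : ℝ) ^ k - (y : ℝ) ^ k| := by
  rcases le_total y x with h | h
  · have h1 : (y : ℝ) ≤ x := by exact_mod_cast h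
    rw [abs_of_nonneg (sub_nonneg.2 h1)]
    exact (pow_diff hk hx h).trans (le_abs_self _)
  · have h1 : (x : ℝ) ≤ y := by exact_mod_cast h
    rw [abs_sub_comm, abs_sub_comm ((x : ℝ) ^ k), abs_of_nonneg (sub_nonneg.2 h1)]
    exact (pow_diff hk hy h).trans (le_abs_self _)

/-- the sum of the majorants -/
theorem sum_maj {A : ℝ} (hA : 0 < A) (n : ℕ) :
    ∑ d ∈ range n, 1 / (1 + (A * ((d : ℝ) + 1)) ^ 2) ≤ 2 / A * (A * n / (1 + A * n)) := by
  induction n with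
  | zero => simp
  | succ n ih =>
    rw [Finset.sum_range_succ]
    have hn : (0 : ℝ) ≤ n := Nat.cast_nonneg _
    have hy : 0 ≤ A * n := by positivity
    have hy1 : 0 < A * ((n : ℝ) + 1) := by positivity
    have h1 : 1 / (1 + (A * ((n : ℝ) + 1)) ^ 2) ≤ 2 / ((1 + A * ((n : ℝ) + 1)) * (1 + A * n)) := by
      rw [div_le_div_iff₀ (by positivity) (by positivity)]
      nlinarith [sq_nonneg (A * ((n : ℝ) + 1) - 1)]
    have h2 : 2 / A * (A * ((n + 1 : ℕ) : ℝ) / (1 + A * ((n + 1 : ℕ) : ℝ))) =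
        2 / A * (A * n / (1 + A * n)) + 2 / ((1 + A * ((n : ℝ) + 1)) * (1 + A * n)) := by
      push_cast
      field_simp
      ring
    rw [h2]
    linarith

theorem sum_maj' {A : ℝ} (hA : 0 < A) (n : ℕ) :
    ∑ d ∈ range (n + 1), 1 / (1 + (A * (d : ℝ)) ^ 2) ≤ 1 + 2 / A := by
  rw [Finset.sum_range_succ']
  have h1 := sum_maj hA n
  have h2 : 2 / A * (A * n / (1 + A * n)) ≤ 2 / A := by
    have h3 : A * n / (1 + A * n) ≤ 1 := by
      rw [div_le_one (by positivity)]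
      linarith
    exact mul_le_of_le_one_right (by positivity) h3
  have h4 : 1 / (1 + (A * ((0 : ℕ) : ℝ)) ^ 2) = 1 := by simp
  rw [h4]
  push_cast
  linarith

/-- the sum over `y` -/
theorem sum_y {A : ℝ} (hA : 0 < A) {X x : ℕ} (hx : x ∈ Finset.Icc X (2 * X)) :
    ∑ y ∈ Finset.Icc X (2 * X), 1 / (1 + (A * |(x : ℝ) - y|) ^ 2) ≤ 2 * (1 + 2 / A) := by
  rw [Finset.mem_Icc] at hx
  set ψ : ℕ → ℝ := fun d => 1 / (1 + (A * (d : ℝ)) ^ 2) with hψ
  have hψ0 : ∀ d, 0 ≤ ψ d := fun d => by simp only [hψ]; positivity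
  have hf0 : ∀ y : ℕ, 0 ≤ 1 / (1 + (A * |(x : ℝ) - y|) ^ 2) := fun y => by positivity
  have hsub : Finset.Icc X (2 * X) ⊆ Finset.Icc X x ∪ Finset.Icc x (2 * X) := by
    intro y hy
    rw [Finset.mem_Icc] at hy
    rw [Finset.mem_union, Finset.mem_Icc, Finset.mem_Icc]
    omega
  have h1 : ∑ y ∈ Finset.Icc X x, 1 / (1 + (A * |(x : ℝ) - y|) ^ 2) ≤ 1 + 2 / A := by
    have e1 : ∑ y ∈ Finset.Icc X x, 1 / (1 + (A * |(x : ℝ) - y|) ^ 2) =
        ∑ y ∈ Finset.Icc X x, ψ (x - y) := by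
      refine Finset.sum_congr rfl fun y hy => ?_
      rw [Finset.mem_Icc] at hy
      have h2 : |(x : ℝ) - y| = ((x - y : ℕ) : ℝ) := by
        rw [Nat.cast_sub hy.2]
        exact abs_of_nonneg (sub_nonneg.2 (by exact_mod_cast hy.2))
      simp only [hψ]
      rw [h2]
    rw [e1, ← Finset.sum_image (s := Finset.Icc X x) (g := fun y => x - y) (f := ψ)]
    · refine (Finset.sum_le_sum_of_subset_of_nonneg ?_ fun d _ _ => hψ0 d).trans (sum_maj' hA X)
      intro d hd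
      rw [Finset.mem_image] at hd
      obtain ⟨y, hy, rfl⟩ := hd
      rw [Finset.mem_Icc] at hy
      rw [Finset.mem_range]
      omega
    · intro y hy z hz h
      rw [Finset.mem_coe, Finset.mem_Icc] at hy hz
      simp only at h
      omega
  have h1' : ∑ y ∈ Finset.Icc x (2 * X), 1 / (1 + (A * |(x : ℝ) - y|) ^ 2) ≤ 1 + 2 / A := by
    have e1 : ∑ y ∈ Finset.Icc x (2 * X), 1 / (1 + (A * |(x : ℝ) - y|) ^ 2) =
        ∑ y ∈ Finset.Icc x (2 * X), ψ (y - x) := by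
      refine Finset.sum_congr rfl fun y hy => ?_
      rw [Finset.mem_Icc] at hy
      have h2 : |(x : ℝ) - y| = ((y - x : ℕ) : ℝ) := by
        rw [Nat.cast_sub hy.1, abs_sub_comm]
        exact abs_of_nonneg (sub_nonneg.2 (by exact_mod_cast hy.1))
      simp only [hψ]
      rw [h2]
    rw [e1, ← Finset.sum_image (s := Finset.Icc x (2 * X)) (g := fun y => y - x) (f := ψ)]
    · refine (Finset.sum_le_sum_of_subset_of_nonneg ?_ fun d _ _ => hψ0 d).trans (sum_maj' hA X)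
      intro d hd
      rw [Finset.mem_image] at hd
      obtain ⟨y, hy, rfl⟩ := hd
      rw [Finset.mem_Icc] at hy
      rw [Finset.mem_range]
      omega
    · intro y hy z hz h
      rw [Finset.mem_coe, Finset.mem_Icc] at hy hz
      simp only at h
      omega
  have h3 := Finset.sum_le_sum_of_subset_of_nonneg hsub (fun y _ _ => hf0 y)
  have h4 := Finset.sum_union_inter (s₁ := Finset.Icc X x) (s₂ := Finset.Icc x (2 * X))
    (f := fun y : ℕ => 1 / (1 + (A * |(x : ℝ) - y|) ^ 2))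
  have h5 : 0 ≤ ∑ y ∈ Finset.Icc X x ∩ Finset.Icc x (2 * X), 1 / (1 + (A * |(x : ℝ) - y|) ^ 2) :=
    Finset.sum_nonneg fun y _ => hf0 y
  linarith

/-- the second moment of the sum without integer parts -/
theorem SQ_moment (h1 : S_CHAR) {k X : ℕ} (hk : 1 ≤ k) (hX : 1 ≤ X) (F : ℕ → ℝ) {g β : ℝ}
    (hβ : 0 < |β|) (hg : |β| ≤ |g|) :
    ∫⁻ θ, ENNReal.ofReal (‖SQ k F X θ g‖ ^ 2) ∂(GM k) ≤
      ENNReal.ofReal (8 * Real.log (2 * X) ^ 2 * X * (1 + 1 / (|β| * (X : ℝ) ^ (k - 1)))) := by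
  have hX1 : (1 : ℝ) ≤ X := by exact_mod_cast hX
  have hlog : 0 ≤ Real.log (2 * X) := Real.log_nonneg (by linarith)
  have hcont := SQ_cont k F X g
  have hbd : ∀ θ, ‖(‖SQ k F X θ g‖ ^ 2 : ℝ)‖ ≤ (∑ x ∈ Finset.Icc X (2 * X), lam x) ^ 2 := by
    intro θ
    rw [Real.norm_of_nonneg (by positivity)]
    refine pow_le_pow_left₀ (norm_nonneg _) ?_ 2
    unfold SQ
    refine (norm_sum_le _ _).trans (Finset.sum_le_sum fun x _ => ?_)
    rw [norm_mul, e_norm, mul_one, Complex.norm_real, Real.norm_of_nonneg (klam_nonneg x)]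
  have hint : Integrable (fun θ => ‖SQ k F X θ g‖ ^ 2) (GM k) :=
    Integrable.of_bound (hcont.norm.pow 2).aestronglyMeasurable _ (Eventually.of_forall hbd)
  rw [← ofReal_integral_eq_lintegral_ofReal hint (Eventually.of_forall fun θ => by positivity)]
  apply ENNReal.ofReal_le_ofReal
  set A : ℝ := |β| * (X : ℝ) ^ (k - 1) with hA
  have hA0 : 0 < A := by positivity
  -- the integral as a double sum
  have e1 : ((∫ θ, ‖SQ k F X θ g‖ ^ 2 ∂(GM k) : ℝ) : ℂ) =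
      ∑ x ∈ Finset.Icc X (2 * X), ∑ y ∈ Finset.Icc X (2 * X),
      (lam x : ℂ) * lam y * e (g * (F x - F y)) * ((Real.exp (-(2 * Real.pi ^ 2 *
        ∑ l : Fin k, (g * ((x : ℝ) ^ ((l : ℕ) + 1) - (y : ℝ) ^ ((l : ℕ) + 1))) ^ 2)) : ℝ) : ℂ) := by
    rw [← integral_complex_ofReal]
    have e2 : ∀ x y : ℕ, Integrable (fun θ : Fin k → ℝ => (lam x : ℂ) * lam y *
        e (g * (F x - F y)) * e (∑ l : Fin k, θ l * (g * ((x : ℝ) ^ ((l : ℕ) + 1) -
          (y : ℝ) ^ ((l : ℕ) + 1))))) (GM k) := by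
      intro x y
      refine Integrable.const_mul ?_ _
      refine Integrable.of_bound (e_continuous.comp (by fun_prop)).aestronglyMeasurable 1
        (Eventually.of_forall fun θ => (e_norm _).le)
    simp only [SQ_sq]
    rw [integral_finsetSum _ fun x _ => integrable_finsetSum _ fun y _ => e2 x y]
    refine Finset.sum_congr rfl fun x _ => ?_
    rw [integral_finsetSum _ fun y _ => e2 x y]
    refine Finset.sum_congr rfl fun y _ => ?_
    rw [integral_const_mul, h1 k]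
  have h3 : ∫ θ, ‖SQ k F X θ g‖ ^ 2 ∂(GM k) ≤ ‖((∫ θ, ‖SQ k F X θ g‖ ^ 2 ∂(GM k) : ℝ) : ℂ)‖ := by
    rw [Complex.norm_real]
    exact le_abs_self _
  refine h3.trans ?_
  rw [e1]
  refine (norm_sum_le _ _).trans ?_
  have h4 : ∀ x ∈ Finset.Icc X (2 * X), ∀ y ∈ Finset.Icc X (2 * X),
      ‖(lam x : ℂ) * lam y * e (g * (F x - F y)) * ((Real.exp (-(2 * Real.pi ^ 2 *
        ∑ l : Fin k, (g * ((x : ℝ) ^ ((l : ℕ) + 1) - (y : ℝ) ^ ((l : ℕ) + 1))) ^ 2)) : ℝ) : ℂ)‖ ≤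
      Real.log (2 * X) ^ 2 * (1 / (1 + (A * |(x : ℝ) - y|) ^ 2)) := by
    intro x hx y hy
    rw [Finset.mem_Icc] at hx hy
    rw [norm_mul, norm_mul, norm_mul, e_norm, mul_one, Complex.norm_real, Complex.norm_real,
      Complex.norm_real, Real.norm_of_nonneg (klam_nonneg x), Real.norm_of_nonneg (klam_nonneg y),
      Real.norm_of_nonneg (Real.exp_pos _).le]
    have h5 : lam x * lam y ≤ Real.log (2 * X) ^ 2 := by
      rw [sq]
      exact mul_le_mul (lam_le X x hX hx.2) (lam_le X y hX hy.2) (klam_nonneg y) hlog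
    refine mul_le_mul h5 ?_ (Real.exp_pos _).le (by positivity)
    -- the top exponent
    have h6 : (g * ((x : ℝ) ^ k - (y : ℝ) ^ k)) ^ 2 ≤
        ∑ l : Fin k, (g * ((x : ℝ) ^ ((l : ℕ) + 1) - (y : ℝ) ^ ((l : ℕ) + 1))) ^ 2 := by
      have h7 := Finset.single_le_sum (f := fun l : Fin k =>
        (g * ((x : ℝ) ^ ((l : ℕ) + 1) - (y : ℝ) ^ ((l : ℕ) + 1))) ^ 2)
        (fun l _ => sq_nonneg _) (Finset.mem_univ (⟨k - 1, by omega⟩ : Fin k))
      have h8 : k - 1 + 1 = k := by omega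
      simp only [h8] at h7
      exact h7
    have h9 : (A * |(x : ℝ) - y|) ^ 2 ≤ (g * ((x : ℝ) ^ k - (y : ℝ) ^ k)) ^ 2 := by
      rw [← sq_abs (g * _), abs_mul]
      refine pow_le_pow_left₀ (by positivity) ?_ 2
      rw [hA, mul_assoc]
      exact mul_le_mul hg (pow_diff_abs hk hx.1 hy.1) (by positivity) (abs_nonneg _)
    have hpi : 1 ≤ 2 * Real.pi ^ 2 := by nlinarith [Real.pi_gt_three]
    rw [Real.exp_neg, ← one_div]
    apply one_div_le_one_div_of_le (by positivity)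
    have h10 := Real.add_one_le_exp (2 * Real.pi ^ 2 *
      ∑ l : Fin k, (g * ((x : ℝ) ^ ((l : ℕ) + 1) - (y : ℝ) ^ ((l : ℕ) + 1))) ^ 2)
    have h11 : (A * |(x : ℝ) - y|) ^ 2 ≤ 2 * Real.pi ^ 2 *
      ∑ l : Fin k, (g * ((x : ℝ) ^ ((l : ℕ) + 1) - (y : ℝ) ^ ((l : ℕ) + 1))) ^ 2 := by
      have h12 := h9.trans h6
      have h13 : (0 : ℝ) ≤ (A * |(x : ℝ) - y|) ^ 2 := sq_nonneg _
      nlinarith
    linarith
  have h14 : ∑ x ∈ Finset.Icc X (2 * X), ‖∑ y ∈ Finset.Icc X (2 * X),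
      (lam x : ℂ) * lam y * e (g * (F x - F y)) * ((Real.exp (-(2 * Real.pi ^ 2 *
        ∑ l : Fin k, (g * ((x : ℝ) ^ ((l : ℕ) + 1) - (y : ℝ) ^ ((l : ℕ) + 1))) ^ 2)) : ℝ) : ℂ)‖ ≤
      ∑ x ∈ Finset.Icc X (2 * X), Real.log (2 * X) ^ 2 * (2 * (1 + 2 / A)) := by
    refine Finset.sum_le_sum fun x hx => (norm_sum_le _ _).trans ?_
    refine (Finset.sum_le_sum fun y hy => h4 x hx y hy).trans ?_
    rw [← Finset.mul_sum]
    exact mul_le_mul_of_nonneg_left (sum_y hA0 hx) (by positivity)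
  refine h14.trans ?_
  rw [Finset.sum_const, Nat.card_Icc, nsmul_eq_mul]
  have h15 : ((2 * X + 1 - X : ℕ) : ℝ) ≤ 2 * X := by
    have : 2 * X + 1 - X ≤ 2 * X := by omega
    exact_mod_cast this
  have h16 : 2 * (1 + 2 / A) ≤ 4 * (1 + 1 / A) := by
    have : 2 / A = 2 * (1 / A) := by ring
    rw [this]
    linarith
  calc ((2 * X + 1 - X : ℕ) : ℝ) * (Real.log (2 * X) ^ 2 * (2 * (1 + 2 / A)))
      ≤ (2 * X) * (Real.log (2 * X) ^ 2 * (4 * (1 + 1 / A))) := by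
        refine mul_le_mul h15 (mul_le_mul_of_nonneg_left h16 (by positivity)) (by positivity)
          (by positivity)
    _ = _ := by ring

/-- the sum of the weights of the frequencies -/
theorem qq_sum_Icc {β : ℝ} (hβ : |β| ≤ 1 / 2) (n : ℕ) :
    ∑ h ∈ Finset.Icc (-((n : ℤ) + 2)) ((n : ℤ) + 2), qq (β + h) ≤ 6 - 2 / ((n : ℝ) + 2) := by
  induction n with
  | zero =>
    have h1 : ∑ h ∈ Finset.Icc (-(((0 : ℕ) : ℤ) + 2)) (((0 : ℕ) : ℤ) + 2), qq (β + h) ≤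
        ∑ h ∈ Finset.Icc (-(((0 : ℕ) : ℤ) + 2)) (((0 : ℕ) : ℤ) + 2), (1 : ℝ) :=
      Finset.sum_le_sum fun h _ => qq_le_one _
    refine h1.trans ?_
    rw [Finset.sum_const, Int.card_Icc]
    norm_num
  | succ n ih =>
    have hset : Finset.Icc (-(((n + 1 : ℕ) : ℤ) + 2)) (((n + 1 : ℕ) : ℤ) + 2) =
        insert ((n : ℤ) + 3) (insert (-((n : ℤ) + 3)) (Finset.Icc (-((n : ℤ) + 2)) ((n : ℤ) + 2))) := by
      ext h
      simp only [Finset.mem_Icc, Finset.mem_insert]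
      push_cast
      omega
    have hn1 : -((n : ℤ) + 3) ∉ Finset.Icc (-((n : ℤ) + 2)) ((n : ℤ) + 2) := by
      rw [Finset.mem_Icc]; omega
    have hn2 : ((n : ℤ) + 3) ∉ insert (-((n : ℤ) + 3))
        (Finset.Icc (-((n : ℤ) + 2)) ((n : ℤ) + 2)) := by
      rw [Finset.mem_insert, Finset.mem_Icc]; omega
    rw [hset, Finset.sum_insert hn2, Finset.sum_insert hn1]
    have hn0 : (0 : ℝ) ≤ n := Nat.cast_nonneg _
    have hb := abs_le.1 hβ
    have h2 : ∀ t : ℝ, (n : ℝ) + 5 / 2 ≤ |t| → qq t ≤ 1 / (((n : ℝ) + 2) * (n + 3)) := by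
      intro t ht
      unfold qq
      rw [if_neg (by rw [not_le]; linarith)]
      apply one_div_le_one_div_of_le (by positivity)
      rw [← sq_abs]
      nlinarith
    have h3 : qq (β + (((n : ℤ) + 3 : ℤ) : ℝ)) ≤ 1 / (((n : ℝ) + 2) * (n + 3)) := by
      apply h2
      push_cast
      rw [abs_of_nonneg (by linarith)]
      linarith
    have h4 : qq (β + ((-((n : ℤ) + 3) : ℤ) : ℝ)) ≤ 1 / (((n : ℝ) + 2) * (n + 3)) := by
      apply h2
      push_cast
      rw [abs_of_nonpos (by linarith)]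
      linarith
    have h5 : (6 : ℝ) - 2 / ((n : ℝ) + 2) + 2 * (1 / (((n : ℝ) + 2) * (n + 3))) =
        6 - 2 / (((n + 1 : ℕ) : ℝ) + 2) := by
      push_cast
      field_simp
      ring
    linarith

theorem qq_sum {β : ℝ} (hβ : |β| ≤ 1 / 2) (s : Finset ℤ) : ∑ h ∈ s, qq (β + h) ≤ 10 := by
  obtain ⟨n, hn⟩ : ∃ n : ℕ, ∀ h ∈ s, |h| ≤ n := by
    refine ⟨s.sup Int.natAbs, fun h hh => ?_⟩
    rw [Int.abs_eq_natAbs]
    exact_mod_cast Finset.le_sup (f := Int.natAbs) hh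
  have h1 : s ⊆ Finset.Icc (-((n : ℤ) + 2)) ((n : ℤ) + 2) := by
    intro h hh
    have := abs_le.1 (hn h hh)
    rw [Finset.mem_Icc]
    omega
  refine (Finset.sum_le_sum_of_subset_of_nonneg h1 fun h _ _ => qq_nonneg _).trans ?_
  refine (qq_sum_Icc hβ n).trans ?_
  have : 0 ≤ 2 / ((n : ℝ) + 2) := by positivity
  linarith

theorem l2 (h1 : S_CHAR) (h2 : S_FLOOR) : S_L2 := by
  intro k hk
  obtain ⟨cc, c1, c2, c3⟩ := h2
  refine ⟨800, by norm_num, ?_⟩
  intro X F β hX hβ hβ2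
  have hX1 : (1 : ℝ) ≤ X := by exact_mod_cast (by omega : 1 ≤ X)
  have hq : ∀ t, ‖cc t‖ ≤ qq t := by
    intro t
    unfold qq
    split_ifs with h
    · exact c1 t
    · have := c2 t (not_le.1 h).le
      rwa [sq_abs] at this
  set M : ℝ≥0∞ := ENNReal.ofReal (8 * Real.log (2 * X) ^ 2 * X *
    (1 + 1 / (|β| * (X : ℝ) ^ (k - 1)))) with hM
  -- the Fourier expansion
  have hsum : ∀ θ, HasSum (fun h : ℤ => cc (β + h) * SQ k F X θ (β + h)) (TQ k F X θ β) := by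
    intro θ
    have h3 : HasSum (fun h : ℤ => ∑ x ∈ Finset.Icc X (2 * X),
        (lam x : ℂ) * (cc (β + h) * e ((β + h) * QQ k F θ x))) (TQ k F X θ β) := by
      have h4 : TQ k F X θ β = ∑ x ∈ Finset.Icc X (2 * X), (lam x : ℂ) *
          (((Real.sin (Real.pi * QQ k F θ x) ^ 2 : ℝ) : ℂ) * e (β * (⌊QQ k F θ x⌋ : ℤ))) := by
        unfold TQ
        refine Finset.sum_congr rfl fun x _ => ?_
        rw [Complex.ofReal_mul, mul_assoc]
      rw [h4]
      exact hasSum_sum fun x _ => (c3 β (QQ k F θ x)).mul_left _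
    have e5 : (fun h : ℤ => cc (β + h) * SQ k F X θ (β + h)) = fun h : ℤ =>
        ∑ x ∈ Finset.Icc X (2 * X), (lam x : ℂ) * (cc (β + h) * e ((β + h) * QQ k F θ x)) := by
      funext h
      unfold SQ
      rw [Finset.mul_sum]
      exact Finset.sum_congr rfl fun x _ => by ring
    rw [e5]
    exact h3
  -- the pointwise bound
  have hpt : ∀ θ, ENNReal.ofReal (‖TQ k F X θ β‖ ^ 2) ≤
      10 * ∑' h : ℤ, ENNReal.ofReal (qq (β + h)) * ENNReal.ofReal (‖SQ k F X θ (β + h)‖ ^ 2) := by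
    intro θ
    have hcont : Continuous fun z : ℂ => ENNReal.ofReal (‖z‖ ^ 2) :=
      ENNReal.continuous_ofReal.comp (by fun_prop)
    refine le_of_tendsto ((hcont.tendsto _).comp (hsum θ)) (Eventually.of_forall fun s => ?_)
    simp only [Function.comp_apply]
    have h5 : ‖∑ h ∈ s, cc (β + h) * SQ k F X θ (β + h)‖ ^ 2 ≤
        10 * ∑ h ∈ s, qq (β + h) * ‖SQ k F X θ (β + h)‖ ^ 2 := by
      have h6 : ‖∑ h ∈ s, cc (β + h) * SQ k F X θ (β + h)‖ ≤
          ∑ h ∈ s, qq (β + h) * ‖SQ k F X θ (β + h)‖ := by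
        refine (norm_sum_le _ _).trans (Finset.sum_le_sum fun h _ => ?_)
        rw [norm_mul]
        exact mul_le_mul_of_nonneg_right (hq _) (norm_nonneg _)
      have h7 := Finset.sum_sq_le_sum_mul_sum_of_sq_le_mul s
        (r := fun h : ℤ => qq (β + h) * ‖SQ k F X θ (β + h)‖) (f := fun h : ℤ => qq (β + h))
        (g := fun h : ℤ => qq (β + h) * ‖SQ k F X θ (β + h)‖ ^ 2)
        (fun h _ => qq_nonneg _) (fun h _ => mul_nonneg (qq_nonneg _) (by positivity))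
        (fun h _ => le_of_eq (by ring))
      have h8 : 0 ≤ ∑ h ∈ s, qq (β + h) * ‖SQ k F X θ (β + h)‖ ^ 2 :=
        Finset.sum_nonneg fun h _ => mul_nonneg (qq_nonneg _) (by positivity)
      exact (pow_le_pow_left₀ (norm_nonneg _) h6 2).trans (h7.trans
        (mul_le_mul_of_nonneg_right (qq_sum hβ2 s) h8))
    refine (ENNReal.ofReal_le_ofReal h5).trans ?_
    rw [ENNReal.ofReal_mul (by norm_num), ENNReal.ofReal_sum_of_nonneg
      (fun h _ => mul_nonneg (qq_nonneg _) (by positivity))]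
    have h9 : ENNReal.ofReal 10 = 10 := by norm_num
    rw [h9]
    refine mul_le_mul' le_rfl ?_
    have h10 : ∀ h : ℤ, ENNReal.ofReal (qq (β + h) * ‖SQ k F X θ (β + h)‖ ^ 2) =
        ENNReal.ofReal (qq (β + h)) * ENNReal.ofReal (‖SQ k F X θ (β + h)‖ ^ 2) := fun h =>
      ENNReal.ofReal_mul (qq_nonneg _)
    simp only [h10]
    exact ENNReal.sum_le_tsum s
  -- the frequencies
  have hfreq : ∀ h : ℤ, |β| ≤ |β + h| := by
    intro h
    rcases eq_or_ne h 0 with rfl | h0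
    · simp
    · have h11 : (1 : ℝ) ≤ |(h : ℝ)| := by exact_mod_cast Int.one_le_abs h0
      have h12 := abs_sub_abs_le_abs_sub (h : ℝ) (-β)
      rw [abs_neg, sub_neg_eq_add, add_comm (h : ℝ) β] at h12
      linarith
  have hmeas : ∀ h : ℤ, Measurable fun θ => ENNReal.ofReal (‖SQ k F X θ (β + h)‖ ^ 2) := fun h =>
    ((SQ_cont k F X (β + h)).norm.measurable.pow_const 2).ennreal_ofReal
  have hqs : ∑' h : ℤ, ENNReal.ofReal (qq (β + h)) ≤ 10 := by
    rw [ENNReal.tsum_eq_iSup_sum]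
    refine iSup_le fun s => ?_
    rw [← ENNReal.ofReal_sum_of_nonneg fun h _ => qq_nonneg _]
    have h9 : ENNReal.ofReal 10 = 10 := by norm_num
    rw [← h9]
    exact ENNReal.ofReal_le_ofReal (qq_sum hβ2 s)
  calc ∫⁻ θ, ENNReal.ofReal (‖TQ k F X θ β‖ ^ 2) ∂(GM k)
      ≤ ∫⁻ θ, 10 * ∑' h : ℤ, ENNReal.ofReal (qq (β + h)) *
          ENNReal.ofReal (‖SQ k F X θ (β + h)‖ ^ 2) ∂(GM k) := lintegral_mono hpt
    _ = 10 * ∑' h : ℤ, ENNReal.ofReal (qq (β + h)) *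
          ∫⁻ θ, ENNReal.ofReal (‖SQ k F X θ (β + h)‖ ^ 2) ∂(GM k) := by
        rw [lintegral_const_mul' _ _ (by norm_num), lintegral_tsum fun h =>
          ((hmeas h).const_mul _).aemeasurable]
        congr 1
        refine tsum_congr fun h => ?_
        rw [lintegral_const_mul _ (hmeas h)]
    _ ≤ 10 * ∑' h : ℤ, ENNReal.ofReal (qq (β + h)) * M := by
        refine mul_le_mul' le_rfl (ENNReal.tsum_le_tsum fun h => mul_le_mul' le_rfl ?_)
        exact SQ_moment h1 hk (by omega) F hβ (hfreq h)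
    _ ≤ 10 * (10 * M) := by
        rw [ENNReal.tsum_mul_right]
        exact mul_le_mul' le_rfl (mul_le_mul' hqs le_rfl)
    _ = ENNReal.ofReal (800 * Real.log (2 * X) ^ 2 * X *
          (1 + 1 / (|β| * (X : ℝ) ^ (k - 1)))) := by
        have h9 : (10 : ℝ≥0∞) = ENNReal.ofReal 10 := by norm_num
        rw [hM, h9, ← ENNReal.ofReal_mul (by norm_num), ← ENNReal.ofReal_mul (by norm_num)]
        congr 1
        ring

end Pool.Agent.N559.KV
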