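import Pool.Agent.N661.QB.Stm
import Pool.Agent.N661.BR.Base
import Pool.Agent.N878.BRBOCH

/-!
# QB/COV: the covariance of a local limit (helper559)
-/

set_option autoImplicit false
open MeasureTheory Filter Topology Complex ProbabilityTheory
open scoped ContDiff

namespace Pool.Agent.N559.QBCOV

open Pool.Agent.N661.BR (MW lin shift IsStationary J0 cov meas_eval meas_shift)
open Pool.Agent.N661.BH (HP loc LocalLaws frames area)
open Pool.Agent.N661.QB

theorem exp_per (θ : ℝ) : Complex.exp (((θ + 2 * Real.pi : ℝ) : ℂ) * I) = Complex.exp (θ * I) := by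
  have h : ((θ + 2 * Real.pi : ℝ) : ℂ) * I = θ * I + 2 * Real.pi * I := by push_cast; ring
  rw [h, Complex.exp_add, Complex.exp_two_pi_mul_I, mul_one]

theorem per_shift {A : ℝ → ℂ} (hA : Function.Periodic A (2 * Real.pi)) (s : ℝ) :
    ∫ θ in (0:ℝ)..(2 * Real.pi), A (θ + s) = ∫ θ in (0:ℝ)..(2 * Real.pi), A θ := by
  rw [intervalIntegral.integral_comp_add_right, zero_add, add_comm (2 * Real.pi) s]
  have := hA.intervalIntegral_add_eq s 0
  rwa [zero_add] at this

/-- the means over the frames are invariant under rotations -/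
theorem frames_rot {k : ℕ} (G : (Fin k → ℂ) → ℂ) (w : Fin k → ℂ) (t0 : ℝ)
    (hA : Continuous fun θ : ℝ => G (fun j => Complex.exp (θ * I) * w j))
    (hB : Continuous fun θ : ℝ => G (fun j => Complex.exp (θ * I) * starRingEnd ℂ (w j))) :
    frames G (fun j => Complex.exp (t0 * I) * w j) = frames G w := by
  unfold frames
  congr 1
  set A : ℝ → ℂ := fun θ => G (fun j => Complex.exp (θ * I) * w j) with hAd
  set B : ℝ → ℂ := fun θ => G (fun j => Complex.exp (θ * I) * starRingEnd ℂ (w j)) with hBd
  have pA : Function.Periodic A (2 * Real.pi) := fun θ => by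
    simp only [hAd, exp_per]
  have pB : Function.Periodic B (2 * Real.pi) := fun θ => by
    simp only [hBd, exp_per]
  have e1 : ∀ θ : ℝ, G (fun j => Complex.exp (θ * I) * (Complex.exp (t0 * I) * w j)) =
      A (θ + t0) := fun θ => by
    simp only [hAd]
    congr 1
    funext j
    rw [← mul_assoc, ← Complex.exp_add]
    congr 2
    push_cast
    ring
  have e2 : ∀ θ : ℝ, G (fun j => Complex.exp (θ * I) *
      starRingEnd ℂ (Complex.exp (t0 * I) * w j)) = B (θ + -t0) := fun θ => by
    simp only [hBd]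
    congr 1
    funext j
    rw [map_mul, ← Complex.exp_conj, ← mul_assoc, ← Complex.exp_add]
    congr 2
    rw [map_mul, Complex.conj_ofReal, Complex.conj_I]
    push_cast
    ring
  have i1 : IntervalIntegrable (fun θ => A (θ + t0)) volume 0 (2 * Real.pi) :=
    (hA.comp (continuous_id.add continuous_const)).intervalIntegrable _ _
  have i2 : IntervalIntegrable (fun θ => B (θ + -t0)) volume 0 (2 * Real.pi) :=
    (hB.comp (continuous_id.add continuous_const)).intervalIntegrable _ _
  simp only [e1, e2]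
  change _ = ∫ θ in (0:ℝ)..(2 * Real.pi), (A θ + B θ)
  rw [intervalIntegral.integral_add i1 i2,
    intervalIntegral.integral_add (hA.intervalIntegrable _ _) (hB.intervalIntegrable _ _),
    per_shift pA, per_shift pB]

/-- the limits are invariant under rotations -/
theorem rot_inv {Ω : Set ℂ} {lam : ℕ → ℝ} {u : ℕ → ℂ → ℝ} (H : HypE Ω lam u) {μ : Measure MW}
    (hL : LocalLaws Ω lam u μ) {k : ℕ} (w : Fin k → ℂ) (t : Fin k → ℝ) (t0 : ℝ) :
    ∫ f, Complex.exp (I * (lin (fun j => Complex.exp (t0 * I) * w j) t f : ℝ)) ∂μ =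
      ∫ f, Complex.exp (I * (lin w t f : ℝ)) ∂μ := by
  refine tendsto_nhds_unique (hL k (fun j => Complex.exp (t0 * I) * w j) t)
    ((hL k w t).congr' ?_)
  have hsq : Tendsto (fun n => √(lam n)) atTop atTop :=
    Real.tendsto_sqrt_atTop.comp H.lim
  filter_upwards [hsq.eventually_gt_atTop (∑ j, ‖w j‖)] with n hn
  congr 1
  unfold area
  refine setIntegral_congr_fun H.op.measurableSet fun z hz => ?_
  have hz0 : 0 < z.im := H.sub hz
  have hpos : 0 < √(lam n) := Real.sqrt_pos.2 (H.pos n)
  have hcont : ∀ v : ℂ, ‖v‖ < √(lam n) → Continuous fun θ : ℝ =>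
      loc (lam n) (u n) z (Complex.exp (θ * I) * v) := by
    intro v hv
    unfold loc
    have hu := (H.sm n).continuousOn
    refine hu.comp_continuous (by fun_prop) fun θ => ?_
    have h1 : |(Complex.exp (θ * I) * v).im| ≤ ‖v‖ := by
      refine (Complex.abs_im_le_norm _).trans ?_
      rw [norm_mul, Complex.norm_exp_ofReal_mul_I, one_mul]
    have h2 : (z + ((z.im / √(lam n) : ℝ) : ℂ) * (Complex.exp (θ * I) * v)).im =
        z.im + z.im / √(lam n) * (Complex.exp (θ * I) * v).im := by
      rw [Complex.add_im, Complex.im_ofReal_mul]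
    have h3 : 0 < z.im + z.im / √(lam n) * (Complex.exp (θ * I) * v).im := by
      have h4 : |z.im / √(lam n) * (Complex.exp (θ * I) * v).im| < z.im := by
        rw [abs_mul, abs_of_pos (div_pos hz0 hpos), div_mul_eq_mul_div, div_lt_iff₀ hpos]
        exact mul_lt_mul_of_pos_left (h1.trans_lt hv) hz0
      have := (abs_lt.1 h4).1
      linarith
    show (0 : ℝ) < _
    rw [h2]
    exact h3
  have hw : ∀ j, ‖w j‖ < √(lam n) := fun j =>
    (Finset.single_le_sum (f := fun j => ‖w j‖) (fun _ _ => norm_nonneg _)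
      (Finset.mem_univ j)).trans_lt hn
  have h5 := frames_rot (fun v => Complex.exp (I *
        ((∑ j, t j * loc (lam n) (u n) z (v j) : ℝ) : ℂ))) w t0
    (Complex.continuous_exp.comp (continuous_const.mul (Complex.continuous_ofReal.comp
      (continuous_finsetSum _ fun j _ => continuous_const.mul (hcont _ (hw j))))))
    (Complex.continuous_exp.comp (continuous_const.mul (Complex.continuous_ofReal.comp
      (continuous_finsetSum _ fun j _ => continuous_const.mul (hcont _ (by
        rw [RCLike.norm_conj]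
        exact hw j))))))
  simp only
  rw [h5]

theorem cov_zero (ν : Measure ℝ) [IsProbabilityMeasure ν] : cov ν 0 = 1 := by
  unfold cov
  simp

theorem cov_neg (ν : Measure ℝ) (w : ℂ) : cov ν (-w) = cov ν w := by
  unfold cov
  congr 1
  funext α
  rw [← Real.cos_neg]
  congr 1
  rw [Complex.neg_re, Complex.neg_im]
  ring

theorem sq_int {ρ : Measure MW} (hs : IsStationary ρ) (h : Integrable (fun f : MW => f 0 ^ 2) ρ)
    (w : ℂ) : Integrable (fun f : MW => f w ^ 2) ρ := by
  have h1 : MeasurePreserving (shift w) ρ ρ := ⟨meas_shift w, hs w⟩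
  have h2 := h1.integrable_comp_of_integrable h
  refine h2.congr (Eventually.of_forall fun f => ?_)
  show (f (0 + w)) ^ 2 = f w ^ 2
  rw [zero_add]

/-- the mean of the covariance over the rotations -/
theorem cov_avg (ν : Measure ℝ) [IsProbabilityMeasure ν] (w : ℂ) :
    ∫ t in (0:ℝ)..(2 * Real.pi), cov ν (Complex.exp (t * I) * w) =
      2 * Real.pi * J0 ‖w‖ := by
  have hw : ∀ t α : ℝ, (Complex.exp (t * I) * w).re * Real.cos α +
      (Complex.exp (t * I) * w).im * Real.sin α = ‖w‖ * Real.cos (t + (w.arg - α)) := by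
    intro t α
    have h1 : Complex.exp (t * I) * w = ((‖w‖ : ℝ) : ℂ) * Complex.exp (((t + w.arg : ℝ) : ℂ) * I) := by
      conv_lhs => rw [← Complex.norm_mul_exp_arg_mul_I w]
      have h2 : ((t + w.arg : ℝ) : ℂ) * I = t * I + w.arg * I := by push_cast; ring
      rw [h2, Complex.exp_add]
      ring
    rw [h1, Complex.re_ofReal_mul, Complex.im_ofReal_mul, Complex.exp_ofReal_mul_I_re,
      Complex.exp_ofReal_mul_I_im]
    have h3 : t + (w.arg - α) = t + w.arg - α := by ring
    rw [h3, Real.cos_sub]
    ring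
  have h2pi : (0 : ℝ) ≤ 2 * Real.pi := by positivity
  unfold cov
  simp only [hw]
  rw [intervalIntegral.integral_of_le h2pi]
  rw [integral_integral_swap (f := fun (t α : ℝ) => Real.cos (‖w‖ * Real.cos (t + (w.arg - α))))]
  · have h4 : ∀ α : ℝ, ∫ t in Set.Ioc (0:ℝ) (2 * Real.pi),
        Real.cos (‖w‖ * Real.cos (t + (w.arg - α))) = 2 * Real.pi * J0 ‖w‖ := by
      intro α
      rw [← intervalIntegral.integral_of_le h2pi]
      have hper : Function.Periodic (fun t : ℝ => Real.cos (‖w‖ * Real.cos t)) (2 * Real.pi) :=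
        fun t => by simp only [Real.cos_add_two_pi]
      rw [intervalIntegral.integral_comp_add_right (fun t => Real.cos (‖w‖ * Real.cos t)),
        zero_add, add_comm (2 * Real.pi) (w.arg - α)]
      have h5 := hper.intervalIntegral_add_eq (w.arg - α) 0
      rw [zero_add] at h5
      rw [h5]
      unfold J0
      have hp := Real.pi_ne_zero
      field_simp
    simp only [h4, integral_const, probReal_univ, one_smul]
  · refine Integrable.of_bound (Continuous.aestronglyMeasurable (by fun_prop)) 1
      (Eventually.of_forall fun p => ?_)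
    rw [Real.norm_eq_abs]
    exact Real.abs_cos_le_one _

/-- **QB/COV** -/
theorem COV (Ω : Set ℂ) (lam : ℕ → ℝ) (u : ℕ → ℂ → ℝ) (H : HypE Ω lam u)
    (μ : Measure MW) (hμ : IsProbabilityMeasure μ) (hL : LocalLaws Ω lam u μ)
    (hs : IsStationary μ) (h0 : ∫ f : MW, f 0 ^ 2 ∂μ = 1) (w : ℂ) :
    ∫ f : MW, f 0 * f w ∂μ = J0 ‖w‖ := by
  have hi0 : Integrable (fun f : MW => f 0 ^ 2) μ := by
    by_contra hc
    rw [integral_undef hc] at h0
    exact zero_ne_one h0
  have hi : ∀ v : ℂ, Integrable (fun f : MW => f v ^ 2) μ := sq_int hs hi0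
  obtain ⟨m, ν, hν, hm0, hm⟩ := Pool.Agent.N878.BR.BOCH μ hμ hs hi0
  have hm1 : m = 1 := by
    have := hm 0 0
    rw [sub_zero, cov_zero, mul_one] at this
    rw [← this, ← h0]
    congr 1
    funext f
    ring
  subst hm1
  have hv2 : ∀ v : ℂ, ∫ f : MW, f v ^ 2 ∂μ = 1 := by
    intro v
    have := hm v v
    rw [sub_self, cov_zero, mul_one] at this
    rw [← this]
    congr 1
    funext f
    ring
  have hmul : ∀ v : ℂ, Integrable (fun f : MW => f 0 * f v) μ := by
    intro v
    refine Integrable.mono' (hi0.add (hi v))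
      ((meas_eval 0).mul (meas_eval v)).aestronglyMeasurable (Eventually.of_forall fun f => ?_)
    rw [Real.norm_eq_abs, abs_mul]
    simp only [Pi.add_apply]
    have h1 := sq_abs (f 0)
    have h2 := sq_abs (f v)
    nlinarith [sq_nonneg (|f 0| - |f v|), sq_nonneg (|f 0| + |f v|)]
  have hexp : ∀ v : ℂ, ∫ f : MW, (f 0 + f v) ^ 2 ∂μ = 2 + 2 * ∫ f : MW, f 0 * f v ∂μ := by
    intro v
    have e : (fun f : MW => (f 0 + f v) ^ 2) = fun f : MW => (f 0 ^ 2 + f v ^ 2) +
        2 * (f 0 * f v) := by
      funext f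
      ring
    have i1 : Integrable (fun f : MW => f 0 ^ 2 + f v ^ 2) μ := hi0.add (hi v)
    rw [e, integral_add i1 ((hmul v).const_mul 2), integral_add hi0 (hi v),
      integral_const_mul, hv2 0, hv2 v]
    ring
  -- the laws
  have hX : ∀ v : ℂ, Measurable fun f : MW => f 0 + f v := fun v =>
    (meas_eval 0).add (meas_eval v)
  have hlaw : ∀ t0 : ℝ, μ.map (fun f : MW => f 0 + f (Complex.exp (t0 * I) * w)) =
      μ.map (fun f : MW => f 0 + f w) := by
    intro t0
    have : IsProbabilityMeasure (μ.map (fun f : MW => f 0 + f (Complex.exp (t0 * I) * w))) :=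
      Measure.isProbabilityMeasure_map (hX _).aemeasurable
    have : IsProbabilityMeasure (μ.map (fun f : MW => f 0 + f w)) :=
      Measure.isProbabilityMeasure_map (hX _).aemeasurable
    apply Measure.ext_of_charFun
    funext s
    have hm' : Measurable fun x : ℝ => Complex.exp (s * x * I) := by fun_prop
    rw [charFun_apply_real, charFun_apply_real, integral_map (hX _).aemeasurable
      hm'.aestronglyMeasurable, integral_map (hX _).aemeasurable hm'.aestronglyMeasurable]
    have h1 := rot_inv H hL (k := 2) ![0, w] ![s, s] t0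
    have e1 : ∀ f : MW, Complex.exp (I * (lin (fun j => Complex.exp (t0 * I) *
        (![0, w] : Fin 2 → ℂ) j) ![s, s] f : ℝ)) =
        Complex.exp (s * ((f 0 + f (Complex.exp (t0 * I) * w) : ℝ) : ℂ) * I) := by
      intro f
      unfold lin
      rw [Fin.sum_univ_two]
      simp only [Matrix.cons_val_zero, Matrix.cons_val_one, mul_zero]
      congr 1
      push_cast
      ring
    have e2 : ∀ f : MW, Complex.exp (I * (lin (![0, w] : Fin 2 → ℂ) ![s, s] f : ℝ)) =
        Complex.exp (s * ((f 0 + f w : ℝ) : ℂ) * I) := by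
      intro f
      unfold lin
      rw [Fin.sum_univ_two]
      simp only [Matrix.cons_val_zero, Matrix.cons_val_one]
      congr 1
      push_cast
      ring
    simp only [e1, e2] at h1
    exact h1
  have hcov : ∀ t0 : ℝ, cov ν (Complex.exp (t0 * I) * w) = ∫ f : MW, f 0 * f w ∂μ := by
    intro t0
    have hsqm : Measurable fun x : ℝ => x ^ 2 := by fun_prop
    have h1 : ∫ f : MW, (f 0 + f (Complex.exp (t0 * I) * w)) ^ 2 ∂μ =
        ∫ f : MW, (f 0 + f w) ^ 2 ∂μ := by
      have h2 := congrArg (fun ρ : Measure ℝ => ∫ x, x ^ 2 ∂ρ) (hlaw t0)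
      rwa [integral_map (hX _).aemeasurable hsqm.aestronglyMeasurable,
        integral_map (hX _).aemeasurable hsqm.aestronglyMeasurable] at h2
    rw [hexp, hexp] at h1
    have h3 := hm 0 (Complex.exp (t0 * I) * w)
    rw [zero_sub, cov_neg, one_mul] at h3
    linarith
  have h6 := cov_avg ν w
  simp only [hcov, intervalIntegral.integral_const, sub_zero, smul_eq_mul] at h6
  exact mul_left_cancel₀ (by positivity) h6

end Pool.Agent.N559.QBCOV
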